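import Mathlib

/-!
# A better motion of a segment across a prism

The endpoint `B` leaves the sphere about `A₁` tangentially in the direction of `B₂`, along the
shortest path from `B₁` to `B₂` outside the open ball, and the other endpoint moves symmetrically.
The cost is `2 (√2 φ + √3)` with `cos φ = (2 + 3 √6) / 10`, about `4.4908`. Every admissible
three-stage motion through the edge points `C₁ θ` costs more.
-/

set_option autoImplicit false

namespace Pool.Agent.Results.MP_9fae52_an.TangentialMotion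

open Set Real Filter Topology
open scoped RealInnerProductSpace

/-- Space. -/
abbrev E3 := EuclideanSpace ℝ (Fin 3)

/-- The point `A₁`. -/
noncomputable def A1 : E3 := !₂[0, 0, 0]

/-- The point `B₁`. -/
noncomputable def B1 : E3 := !₂[1, 1, 0]

/-- The point `A₂`. -/
noncomputable def A2 : E3 := !₂[0, 1, 2]

/-- The point `B₂`. -/
noncomputable def B2 : E3 := !₂[1, 0, 2]

/-- The point `C₁ θ`. -/
noncomputable def C1 (θ : ℝ) : E3 := !₂[1, Real.cos θ, Real.sin θ]

/-- The point `C₂ θ`. -/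
noncomputable def C2 (θ : ℝ) : E3 := !₂[0, Real.cos θ, 2 - Real.sin θ]

/-- Motions of the segment. -/
structure IsMotion (A B : ℝ → E3) : Prop where
  contA : ContinuousOn A (Icc 0 1)
  contB : ContinuousOn B (Icc 0 1)
  dist_eq : ∀ t ∈ Icc (0 : ℝ) 1, dist (A t) (B t) = √2
  A_zero : A 0 = A1
  B_zero : B 0 = B1
  A_one : A 1 = A2
  B_one : B 1 = B2

/-- The cost of a motion: the sum of the arc lengths of the endpoint curves. -/
noncomputable def cost (A B : ℝ → E3) : ENNReal :=
  eVariationOn A (Icc 0 1) + eVariationOn B (Icc 0 1)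

/-- The angle `θ` is admissible if stage 2 can be carried out: `B` moves along the segment from
`C₁ θ` to `B₂` and `A` along the segment from `A₁` to `C₂ θ`, each monotonically, at constant
distance `√2`. -/
def Admissible (θ : ℝ) : Prop :=
  ∃ t s : ℝ → ℝ, ContinuousOn t (Icc 0 1) ∧ ContinuousOn s (Icc 0 1) ∧
    MonotoneOn t (Icc 0 1) ∧ MonotoneOn s (Icc 0 1) ∧ t 0 = 0 ∧ t 1 = 1 ∧ s 0 = 0 ∧ s 1 = 1 ∧
    ∀ τ ∈ Icc (0 : ℝ) 1,
      dist (AffineMap.lineMap A1 (C2 θ) (s τ)) (AffineMap.lineMap (C1 θ) B2 (t τ)) = √2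

/-- The cost of `M_θ`: the lengths of the great-circle arc from `B₁` to `C₁ θ` about `A₁`, of the
two segments, and of the great-circle arc from `C₂ θ` to `A₂` about `B₂`. -/
noncomputable def costM (θ : ℝ) : ℝ :=
  √2 * InnerProductGeometry.angle (B1 - A1) (C1 θ - A1) + dist (C1 θ) B2 + dist A1 (C2 θ) +
    √2 * InnerProductGeometry.angle (C2 θ - B2) (A2 - B2)

section geometry

theorem norm_vec (a b c : ℝ) : ‖(!₂[a, b, c] : E3)‖ ^ 2 = a ^ 2 + b ^ 2 + c ^ 2 := by
  rw [EuclideanSpace.norm_sq_eq, Fin.sum_univ_three]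
  simp

theorem norm_vec' (a b c : ℝ) : ‖(!₂[a, b, c] : E3)‖ = √(a ^ 2 + b ^ 2 + c ^ 2) := by
  rw [← norm_vec, Real.sqrt_sq (norm_nonneg _)]

theorem sub_vec (a b c x y z : ℝ) :
    (!₂[a, b, c] : E3) - !₂[x, y, z] = !₂[a - x, b - y, c - z] := by
  ext i
  fin_cases i <;> simp

theorem dist_vec (a b c x y z : ℝ) : dist (!₂[a, b, c] : E3) !₂[x, y, z] =
    √((a - x) ^ 2 + (b - y) ^ 2 + (c - z) ^ 2) := by
  rw [dist_eq_norm, sub_vec, norm_vec']

theorem inner_vec (a b c x y z : ℝ) : ⟪(!₂[a, b, c] : E3), !₂[x, y, z]⟫ =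
    a * x + b * y + c * z := by
  rw [PiLp.inner_apply, Fin.sum_univ_three]
  simp
  ring

theorem costM_eq (θ : ℝ) : costM θ =
    2 * (√2 * Real.arccos ((1 + Real.cos θ) / 2) + √(5 - 4 * Real.sin θ)) := by
  have h2 : √2 * √2 = 2 := Real.mul_self_sqrt (by norm_num)
  have hcs := Real.sin_sq_add_cos_sq θ
  have a1 : InnerProductGeometry.angle (B1 - A1) (C1 θ - A1) =
      Real.arccos ((1 + Real.cos θ) / 2) := by
    rw [InnerProductGeometry.angle, B1, A1, C1, sub_vec, sub_vec, inner_vec, norm_vec', norm_vec']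
    have e1 : √((1 - 0) ^ 2 + (1 - 0) ^ 2 + (0 - 0) ^ 2 : ℝ) = √2 := by norm_num
    have e2 : √((1 - 0) ^ 2 + (Real.cos θ - 0) ^ 2 + (Real.sin θ - 0) ^ 2) = √2 := by
      congr 1
      linarith
    rw [e1, e2, h2]
    congr 1
    ring
  have a2 : InnerProductGeometry.angle (C2 θ - B2) (A2 - B2) =
      Real.arccos ((1 + Real.cos θ) / 2) := by
    rw [InnerProductGeometry.angle, B2, A2, C2, sub_vec, sub_vec, inner_vec, norm_vec', norm_vec']
    have e1 : √((0 - 1) ^ 2 + (1 - 0) ^ 2 + (2 - 2) ^ 2 : ℝ) = √2 := by norm_num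
    have e2 : √((0 - 1) ^ 2 + (Real.cos θ - 0) ^ 2 + (2 - Real.sin θ - 2) ^ 2) = √2 := by
      congr 1
      linarith
    rw [e1, e2, h2]
    congr 1
    ring
  have a3 : dist (C1 θ) B2 = √(5 - 4 * Real.sin θ) := by
    rw [C1, B2, dist_vec]
    congr 1
    linarith
  have a4 : dist A1 (C2 θ) = √(5 - 4 * Real.sin θ) := by
    rw [A1, C2, dist_vec]
    congr 1
    linarith
  rw [costM, a1, a2, a3, a4]
  ring

theorem small_neg {y t s r : ℝ} (hy1 : y < 1 / 2) (ht : 0 ≤ t) (hs : 0 ≤ s)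
    (hr : t + s = r) (hr0 : 0 < r) {m C : ℝ} (hm1 : m ≤ 1 - 2 * y)
    (hm2 : m ≤ 1 + 2 * y - 2 * y ^ 2) (hC : 5 - 4 * y < C) (hrC : r * C = m) :
    (5 - 4 * y) * (t ^ 2 + s ^ 2) - 2 * (1 - 2 * y) * t -
      2 * (1 + 2 * y - 2 * y ^ 2) * s - 2 * (3 - 4 * y + 2 * y ^ 2) * (s * t) < 0 := by
  have hb : 0 < 3 - 4 * y + 2 * y ^ 2 := by nlinarith [sq_nonneg (1 - y)]
  have hl : 0 < 5 - 4 * y := by linarith
  have h2 : t ^ 2 + s ^ 2 ≤ r ^ 2 := by
    rw [← hr]
    nlinarith [mul_nonneg ht hs]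
  have h4 : m * r ≤ (1 - 2 * y) * t + (1 + 2 * y - 2 * y ^ 2) * s := by
    rw [← hr, mul_add]
    exact add_le_add (mul_le_mul_of_nonneg_right hm1 ht) (mul_le_mul_of_nonneg_right hm2 hs)
  have h5 : (5 - 4 * y) * (t ^ 2 + s ^ 2) ≤ (5 - 4 * y) * r ^ 2 :=
    mul_le_mul_of_nonneg_left h2 hl.le
  have h6 : 0 ≤ (3 - 4 * y + 2 * y ^ 2) * (s * t) := by positivity
  have h7 : (5 - 4 * y) * r ^ 2 < m * r := by
    rw [← hrC]
    have : (5 - 4 * y) * (r * r) < C * (r * r) := mul_lt_mul_of_pos_right hC (by positivity)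
    linarith
  have h8 : 0 < m * r := lt_of_le_of_lt (by positivity) h7
  linarith

theorem admissible_sin {θ : ℝ} (h : Admissible θ) :
    1 / 2 ≤ Real.sin θ ∨ Real.sin θ ≤ -(5 / 16) := by
  by_contra hcon
  push Not at hcon
  obtain ⟨hy1, hy2⟩ := hcon
  obtain ⟨t, s, htc, hsc, htm, hsm, ht0, ht1, hs0, hs1, hd⟩ := h
  set y := Real.sin θ with hy
  set x := Real.cos θ with hx
  have hcs : y ^ 2 + x ^ 2 = 1 := Real.sin_sq_add_cos_sq θ
  have hF : ∀ τ ∈ Icc (0 : ℝ) 1, (5 - 4 * y) * (t τ ^ 2 + s τ ^ 2) - 2 * (1 - 2 * y) * t τ -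
      2 * (1 + 2 * y - 2 * y ^ 2) * s τ - 2 * (3 - 4 * y + 2 * y ^ 2) * (s τ * t τ) = 0 := by
    intro τ hτ
    have h1 := hd τ hτ
    have e1 : AffineMap.lineMap A1 (C2 θ) (s τ) =
        (!₂[0, s τ * x, s τ * (2 - y)] : E3) := by
      rw [AffineMap.lineMap_apply_module', A1, C2]
      ext i
      fin_cases i <;> simp [hx, hy]
    have e2 : AffineMap.lineMap (C1 θ) B2 (t τ) =
        (!₂[1, x - t τ * x, y + t τ * (2 - y)] : E3) := by
      rw [AffineMap.lineMap_apply_module', B2, C1]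
      ext i
      fin_cases i
      · simp
      · simp [hx]
        ring
      · simp [hy]
        ring
    rw [e1, e2, dist_vec] at h1
    have h2 := Real.sqrt_inj (x := (0 - 1) ^ 2 + (s τ * x - (x - t τ * x)) ^ 2 +
      (s τ * (2 - y) - (y + t τ * (2 - y))) ^ 2) (y := 2) (by positivity) (by norm_num)
    have h3 := h2.1 h1
    have h4 : x ^ 2 = 1 - y ^ 2 := by linarith
    have h5 : (s τ * x - (x - t τ * x)) ^ 2 = x ^ 2 * (s τ - (1 - t τ)) ^ 2 := by ring
    rw [h5, h4] at h3
    linear_combination h3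
  have hk1 : 0 < 1 - 2 * y := by linarith
  have ha : 0 < 1 + 2 * y - 2 * y ^ 2 := by
    have := mul_pos (show 0 < 1 / 2 - y by linarith) (show 0 < y + 5 / 16 by linarith)
    nlinarith
  have hb : 0 < 3 - 4 * y + 2 * y ^ 2 := by nlinarith [sq_nonneg (1 - y)]
  have hl : 0 < 5 - 4 * y := by linarith
  set m := min (1 - 2 * y) (1 + 2 * y - 2 * y ^ 2) with hm
  have hm0 : 0 < m := lt_min hk1 ha
  have hm1 : m ≤ 1 - 2 * y := min_le_left _ _
  have hm2 : m ≤ 1 + 2 * y - 2 * y ^ 2 := min_le_right _ _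
  set C := (5 - 4 * y) + (3 - 4 * y + 2 * y ^ 2) + 1 with hC
  have hC0 : 1 < C := by linarith
  set r := m / C with hr
  have hr0 : 0 < r := by positivity
  have hrC : r * C = m := div_mul_cancel₀ _ (by linarith)
  have hr2 : r ≤ 2 := by
    rw [hr, div_le_iff₀ (by linarith)]
    nlinarith
  have hcont : ContinuousOn (fun τ => t τ + s τ) (Icc 0 1) := htc.add hsc
  have hIVT := intermediate_value_Icc (zero_le_one' ℝ) hcont
  have hmem : r ∈ Icc (t 0 + s 0) (t 1 + s 1) := by
    rw [ht0, hs0, ht1, hs1]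
    constructor <;> linarith
  obtain ⟨τ, hτ, hτr⟩ := hIVT hmem
  have h0 : (0 : ℝ) ∈ Icc (0 : ℝ) 1 := by simp
  have htn : 0 ≤ t τ := ht0 ▸ htm h0 hτ hτ.1
  have hsn : 0 ≤ s τ := hs0 ▸ hsm h0 hτ hτ.1
  have h1 := hF τ hτ
  dsimp only at hτr
  have h2 := small_neg hy1 htn hsn hτr hr0 hm1 hm2 (by linarith) hrC
  linarith

/-- The angle of the tangential motion. -/
noncomputable def phi : ℝ := Real.arccos ((2 + 3 * √6) / 10)

theorem sqrt_six_sq : √6 ^ 2 = 6 := Real.sq_sqrt (by norm_num)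

theorem sqrt_six_bounds : 2.44 < √6 ∧ √6 < 2.45 := by
  constructor
  · apply Real.lt_sqrt_of_sq_lt
    norm_num
  · rw [Real.sqrt_lt' (by norm_num)]
    norm_num

theorem cos_phi : Real.cos phi = (2 + 3 * √6) / 10 := by
  have := sqrt_six_bounds
  norm_num at this
  exact Real.cos_arccos (by linarith) (by linarith)

theorem sin_phi : Real.sin phi = (6 - √6) / 10 := by
  have := sqrt_six_bounds
  norm_num at this
  rw [phi, Real.sin_arccos]
  have h : 1 - ((2 + 3 * √6) / 10) ^ 2 = ((6 - √6) / 10) ^ 2 := by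
    linear_combination (-1 / 10 : ℝ) * sqrt_six_sq
  rw [h, Real.sqrt_sq (by linarith)]

theorem phi_nonneg : 0 ≤ phi := Real.arccos_nonneg _

theorem phi_eq : phi = Real.arccos (1 / √10) - Real.arccos (2 / √10) := by
  have h10 : √10 ^ 2 = 10 := Real.sq_sqrt (by norm_num)
  have h10p : 3 < √10 := by
    apply Real.lt_sqrt_of_sq_lt
    norm_num
  have hle : 1 / √10 ≤ 2 / √10 := by
    apply div_le_div_of_nonneg_right (by norm_num) (by linarith)
  have hle2 : 2 / √10 ≤ 1 := by
    rw [div_le_one (by linarith)]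
    linarith
  have hpos : 0 < 1 / √10 := by positivity
  have h1 : Real.arccos (2 / √10) ≤ Real.arccos (1 / √10) := Real.arccos_le_arccos hle
  have h2 := Real.arccos_nonneg (2 / √10)
  have h3 := Real.arccos_le_pi (1 / √10)
  have hcos : Real.cos (Real.arccos (1 / √10) - Real.arccos (2 / √10)) = (2 + 3 * √6) / 10 := by
    rw [Real.cos_sub, Real.cos_arccos (by linarith) (by linarith),
      Real.cos_arccos (by linarith) hle2, Real.sin_arccos, Real.sin_arccos]
    have e1 : 1 - (1 / √10) ^ 2 = (3 / √10) ^ 2 := by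
      rw [div_pow, div_pow, h10]
      norm_num
    have e2 : 1 - (2 / √10) ^ 2 = (√6 / √10) ^ 2 := by
      rw [div_pow, div_pow, h10, sqrt_six_sq]
      norm_num
    rw [e1, e2, Real.sqrt_sq (by positivity), Real.sqrt_sq (by positivity)]
    field_simp
    rw [h10]
  rw [phi, ← hcos, Real.arccos_cos (by linarith) (by linarith)]

theorem main_ineq {c s : ℝ} (hcs : c ^ 2 + s ^ 2 = 1) (hs : 1 / 2 ≤ s) :
    √2 * phi + √3 < √2 * Real.arccos ((1 + c) / 2) + √(5 - 4 * s) := by
  have h2p : 0 < √2 := by positivity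
  rcases hs.eq_or_lt with hs' | hs'
  · -- the boundary case
    rw [← hs']
    have e1 : (5 : ℝ) - 4 * (1 / 2) = 3 := by norm_num
    rw [e1]
    have h3 : √3 ^ 2 = 3 := Real.sq_sqrt (by norm_num)
    have h3p : 1.732 < √3 ∧ √3 < 1.7321 := by
      constructor
      · apply Real.lt_sqrt_of_sq_lt
        norm_num
      · rw [Real.sqrt_lt' (by norm_num)]
        norm_num
    have h6 := sqrt_six_sq
    have h6l : 2.4494 < √6 := by
      apply Real.lt_sqrt_of_sq_lt
      norm_num
    norm_num at h3p h6l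
    have hc : c ≤ √3 / 2 := by
      rw [← hs'] at hcs
      by_contra hcon
      push Not at hcon
      nlinarith
    have hlt : (1 + c) / 2 < (2 + 3 * √6) / 10 := by linarith
    have hc1 : -1 ≤ c := by nlinarith
    have hlt2 : phi < Real.arccos ((1 + c) / 2) := by
      unfold phi
      apply Real.strictAntiOn_arccos _ _ hlt
      · constructor <;> linarith
      · have := sqrt_six_bounds
        norm_num at this
        constructor <;> linarith
    have := mul_lt_mul_of_pos_left hlt2 h2p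
    linarith
  · have hvn : √(1 ^ 2 + c ^ 2 + s ^ 2) = √2 := by
      congr 1
      linarith
    have h10 : √10 ^ 2 = 10 := Real.sq_sqrt (by norm_num)
    have h10p : 3 < √10 := by
      apply Real.lt_sqrt_of_sq_lt
      norm_num
    have h25 : √2 * √5 = √10 := by
      rw [← Real.sqrt_mul (by norm_num)]
      norm_num
    have hs1 : s ≤ 1 := by nlinarith
    have tri := InnerProductGeometry.angle_le_angle_add_angle (B1) (!₂[1, c, s] : E3) B2
    have a1 : InnerProductGeometry.angle B1 (!₂[1, c, s] : E3) = Real.arccos ((1 + c) / 2) := by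
      rw [InnerProductGeometry.angle, B1, inner_vec, norm_vec', norm_vec', hvn]
      have e1 : √(1 ^ 2 + 1 ^ 2 + 0 ^ 2 : ℝ) = √2 := by norm_num
      rw [e1, Real.mul_self_sqrt (by norm_num)]
      congr 1
      ring
    have a2 : InnerProductGeometry.angle (!₂[1, c, s] : E3) B2 =
        Real.arccos ((1 + 2 * s) / √10) := by
      rw [InnerProductGeometry.angle, B2, inner_vec, norm_vec', norm_vec', hvn]
      have e1 : √(1 ^ 2 + 0 ^ 2 + 2 ^ 2 : ℝ) = √5 := by norm_num
      rw [e1, h25]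
      congr 1
      ring
    have a3 : InnerProductGeometry.angle B1 B2 = Real.arccos (1 / √10) := by
      rw [InnerProductGeometry.angle, B1, B2, inner_vec, norm_vec', norm_vec']
      have e1 : √(1 ^ 2 + 0 ^ 2 + 2 ^ 2 : ℝ) = √5 := by norm_num
      have e2 : √(1 ^ 2 + 1 ^ 2 + 0 ^ 2 : ℝ) = √2 := by norm_num
      rw [e1, e2, h25]
      congr 1
      norm_num
    rw [a1, a2, a3] at tri
    set α := Real.arccos ((1 + c) / 2)
    set γ := Real.arccos ((1 + 2 * s) / √10) with hγ
    set γ₀ := Real.arccos (2 / √10) with hγ₀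
    have hpe := phi_eq
    rw [← hγ₀] at hpe
    have hq1 : 2 / √10 < (1 + 2 * s) / √10 := div_lt_div_of_pos_right (by linarith) (by linarith)
    have hq2 : (1 + 2 * s) / √10 ≤ 1 := by
      rw [div_le_one (by linarith)]
      linarith
    have hq0 : 0 < 2 / √10 := by positivity
    have hδ : γ < γ₀ := by
      apply Real.strictAntiOn_arccos _ _ hq1
      · constructor <;> linarith
      · constructor <;> linarith
    have hcosγ : Real.cos γ = (1 + 2 * s) / √10 := Real.cos_arccos (by linarith) hq2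
    have hcosγ₀ : Real.cos γ₀ = 2 / √10 := Real.cos_arccos (by linarith) (by linarith)
    have hsinγ₀ : Real.sin γ₀ = √6 / √10 := by
      rw [hγ₀, Real.sin_arccos]
      have e2 : 1 - (2 / √10) ^ 2 = (√6 / √10) ^ 2 := by
        rw [div_pow, div_pow, h10, sqrt_six_sq]
        norm_num
      rw [e2, Real.sqrt_sq (by positivity)]
    set δ := γ₀ - γ with hδd
    have hγδ : γ = γ₀ - δ := by rw [hδd]; ring
    have hexp : 1 + 2 * s = 2 * Real.cos δ + √6 * Real.sin δ := by
      have h1 := hcosγ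
      rw [hγδ, Real.cos_sub, hcosγ₀, hsinγ₀] at h1
      field_simp at h1
      linarith
    have hsq : 5 - 4 * s = (√3 - √2 * Real.sin δ) ^ 2 + 2 * (1 - Real.cos δ) ^ 2 := by
      have h3 : √3 ^ 2 = 3 := Real.sq_sqrt (by norm_num)
      have h2 : √2 ^ 2 = 2 := Real.sq_sqrt (by norm_num)
      have h23 : √3 * √2 = √6 := by
        rw [← Real.sqrt_mul (by norm_num)]
        norm_num
      have hcs2 := Real.sin_sq_add_cos_sq δ
      have : (√3 - √2 * Real.sin δ) ^ 2 + 2 * (1 - Real.cos δ) ^ 2 = √3 ^ 2 -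
          2 * (√3 * √2) * Real.sin δ + √2 ^ 2 * Real.sin δ ^ 2 + 2 - 4 * Real.cos δ +
          2 * Real.cos δ ^ 2 := by ring
      rw [this, h3, h2, h23]
      linarith
    have hge : √3 - √2 * Real.sin δ ≤ √(5 - 4 * s) := by
      apply Real.le_sqrt_of_sq_le
      rw [hsq]
      have := sq_nonneg (1 - Real.cos δ)
      linarith
    have hsinδ : Real.sin δ < δ := Real.sin_lt (by linarith)
    have h5 : √2 * (phi + δ) ≤ √2 * α := mul_le_mul_of_nonneg_left (by linarith) h2p.le
    have h6 := mul_lt_mul_of_pos_left hsinδ h2p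
    linarith

theorem phi_le : phi ≤ 1 / 2 := by
  have h1 := Real.cos_bound (x := 1 / 2) (by rw [abs_of_pos] <;> norm_num)
  have h2 := (abs_le.1 h1).2
  rw [abs_of_pos (by norm_num)] at h2
  have h6 := sqrt_six_bounds
  norm_num at h6
  have h3 : Real.cos (1 / 2) ≤ (2 + 3 * √6) / 10 := by
    norm_num at h2 ⊢
    linarith
  calc phi ≤ Real.arccos (Real.cos (1 / 2)) := Real.arccos_le_arccos h3
    _ = 1 / 2 := Real.arccos_cos (by norm_num) (by linarith [Real.pi_gt_three])

/-- A uniform gap for the costs of the three-stage motions. -/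
theorem exists_gap : ∃ c' : ℝ, 2 * (√2 * phi + √3) < c' ∧ ∀ θ, Admissible θ → c' ≤ costM θ := by
  set K : Set (ℝ × ℝ) := {p | p.1 ^ 2 + p.2 ^ 2 = 1 ∧ 1 / 2 ≤ p.2} with hK
  set F : ℝ × ℝ → ℝ := fun p => 2 * (√2 * Real.arccos ((1 + p.1) / 2) + √(5 - 4 * p.2)) with hF
  have hFc : Continuous F := by
    rw [hF]
    exact continuous_const.mul ((continuous_const.mul (Real.continuous_arccos.comp
      ((continuous_const.add continuous_fst).div_const 2))).add
      (Real.continuous_sqrt.comp (continuous_const.sub (continuous_const.mul continuous_snd))))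
  have hKc : IsCompact K := by
    have hcl : IsClosed K := by
      have c1 : IsClosed {p : ℝ × ℝ | p.1 ^ 2 + p.2 ^ 2 = 1} :=
        isClosed_eq ((continuous_fst.pow 2).add (continuous_snd.pow 2)) continuous_const
      have c2 : IsClosed {p : ℝ × ℝ | 1 / 2 ≤ p.2} := isClosed_le continuous_const continuous_snd
      exact c1.inter c2
    refine (isCompact_Icc (a := ((-1 : ℝ), (-1 : ℝ))) (b := (1, 1))).of_isClosed_subset hcl ?_
    rintro ⟨a, b⟩ ⟨h1, h2⟩
    dsimp only at h1 h2
    refine ⟨Prod.mk_le_mk.2 ⟨?_, ?_⟩, Prod.mk_le_mk.2 ⟨?_, ?_⟩⟩ <;> nlinarith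
  have hne : K.Nonempty := ⟨(0, 1), by norm_num, by norm_num⟩
  obtain ⟨p, hp, hmin⟩ := hKc.exists_isMinOn hne hFc.continuousOn
  refine ⟨min (F p) 5, lt_min ?_ ?_, ?_⟩
  · have h0 := main_ineq hp.1 hp.2
    change 2 * (√2 * phi + √3) < 2 * (√2 * Real.arccos ((1 + p.1) / 2) + √(5 - 4 * p.2))
    exact mul_lt_mul_of_pos_left h0 two_pos
  · have h1 := phi_le
    have h2 : √2 < 1.415 := by
      rw [Real.sqrt_lt' (by norm_num)]
      norm_num
    have h3 : √3 < 1.7321 := by
      rw [Real.sqrt_lt' (by norm_num)]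
      norm_num
    have h4 := phi_nonneg
    have h5 : 0 ≤ √2 := Real.sqrt_nonneg _
    have h6 : √2 * phi ≤ √2 * (1 / 2) := mul_le_mul_of_nonneg_left h1 h5
    norm_num at h2 h3
    linarith
  · intro θ hθ
    rw [costM_eq]
    rcases admissible_sin hθ with h | h
    · refine (min_le_left _ _).trans ?_
      have : (Real.cos θ, Real.sin θ) ∈ K :=
        ⟨by dsimp only; linarith [Real.sin_sq_add_cos_sq θ], h⟩
      have h7 : F p ≤ F (Real.cos θ, Real.sin θ) := hmin this
      have h8 : F (Real.cos θ, Real.sin θ) =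
          2 * (√2 * Real.arccos ((1 + Real.cos θ) / 2) + √(5 - 4 * Real.sin θ)) := rfl
      rw [← h8]
      exact h7
    · refine (min_le_right _ _).trans ?_
      have h1 : (5 / 2 : ℝ) ≤ √(5 - 4 * Real.sin θ) := by
        apply Real.le_sqrt_of_sq_le
        norm_num
        linarith
      have h2 : 0 ≤ √2 * Real.arccos ((1 + Real.cos θ) / 2) :=
        mul_nonneg (Real.sqrt_nonneg _) (Real.arccos_nonneg _)
      linarith

end geometry

section motion

/-- The great-circle arc starting at `B₁`. -/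
noncomputable def R (x : ℝ) : E3 :=
  !₂[Real.cos x + Real.sin x / 3, Real.cos x - Real.sin x / 3, 4 * Real.sin x / 3]

/-- The isometry which exchanges the two diagonals. -/
noncomputable def J (v : E3) : E3 := !₂[1 - v 0, v 1, 2 - v 2]

/-- The clamp to `[0, 1]`. -/
noncomputable def cl (x : ℝ) : ℝ := max 0 (min 1 x)

theorem cl_cont : Continuous cl := by
  unfold cl
  fun_prop

theorem cl_mono : Monotone cl := fun a b h => by
  unfold cl
  gcongr

theorem cl_nonneg (x : ℝ) : 0 ≤ cl x := le_max_left _ _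

theorem cl_le (x : ℝ) : cl x ≤ 1 := max_le zero_le_one (min_le_left _ _)

theorem cl_of_le {x : ℝ} (h : x ≤ 0) : cl x = 0 := by
  unfold cl
  rw [max_eq_left ((min_le_right _ _).trans h)]

theorem cl_of_ge {x : ℝ} (h : 1 ≤ x) : cl x = 1 := by
  unfold cl
  rw [min_eq_left h, max_eq_right zero_le_one]

/-- The position of `A` on its segment, as a function of that of `B`. -/
noncomputable def sg (t : ℝ) : ℝ := (4 + 5 * t - 2 * √((1 - t) * (4 + 14 * t))) / 9

theorem sg_zero : sg 0 = 0 := by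
  unfold sg
  have : √((1 - 0) * (4 + 14 * 0) : ℝ) = 2 := by
    rw [show ((1 - 0) * (4 + 14 * 0) : ℝ) = 2 ^ 2 by norm_num]
    exact Real.sqrt_sq (by norm_num)
  rw [this]
  norm_num

theorem sg_one : sg 1 = 1 := by
  unfold sg
  norm_num

theorem sg_cont : Continuous sg := by
  unfold sg
  fun_prop

theorem sg_eq {t : ℝ} (h0 : 0 ≤ t) (h1 : t ≤ 1) :
    3 * t ^ 2 + 3 * sg t ^ 2 - 8 / 3 * sg t - 10 / 3 * (sg t * t) = 0 := by
  have hq : 0 ≤ (1 - t) * (4 + 14 * t) := mul_nonneg (by linarith) (by linarith)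
  have hw := Real.sq_sqrt hq
  unfold sg
  set w := √((1 - t) * (4 + 14 * t))
  linear_combination (4 / 27 : ℝ) * hw

theorem sg_mono : MonotoneOn sg (Icc 0 1) := by
  intro a ha b hb hab
  have hqa : 0 ≤ (1 - a) * (4 + 14 * a) := mul_nonneg (by linarith [ha.2]) (by linarith [ha.1])
  have hqb : 0 ≤ (1 - b) * (4 + 14 * b) := mul_nonneg (by linarith [hb.2]) (by linarith [hb.1])
  have key : ∀ t : ℝ, 0 ≤ t → t ≤ 1 → 10 - 28 * t ≤ 5 * √((1 - t) * (4 + 14 * t)) := by
    intro t h0 h1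
    have hq : 0 ≤ (1 - t) * (4 + 14 * t) := mul_nonneg (by linarith) (by linarith)
    rcases le_total (10 - 28 * t) 0 with h | h
    · exact h.trans (by positivity)
    · have h5 : (10 - 28 * t) / 5 ≤ √((1 - t) * (4 + 14 * t)) := by
        apply Real.le_sqrt_of_sq_le
        nlinarith
      linarith
  have ka := key a ha.1 ha.2
  have kb := key b hb.1 hb.2
  have wa := Real.sq_sqrt hqa
  have wb := Real.sq_sqrt hqb
  have wa0 := Real.sqrt_nonneg ((1 - a) * (4 + 14 * a))
  have wb0 := Real.sqrt_nonneg ((1 - b) * (4 + 14 * b))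
  unfold sg
  set p := √((1 - a) * (4 + 14 * a))
  set q := √((1 - b) * (4 + 14 * b))
  apply div_le_div_of_nonneg_right _ (by norm_num)
  by_contra hcon
  push Not at hcon
  have h1 : 5 * (b - a) < 2 * (q - p) := by linarith
  have h2 : 0 < q + p := by
    rcases (add_nonneg wb0 wa0).eq_or_lt with h | h
    · exfalso
      have hq0 : q = 0 := by linarith
      have hp0 : p = 0 := by linarith
      rw [hq0, hp0] at h1
      linarith
    · exact h
  have h3 : 5 * (b - a) * (q + p) < 2 * (q - p) * (q + p) := mul_lt_mul_of_pos_right h1 h2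
  have h4 : 2 * (q - p) * (q + p) = 2 * ((b - a) * (10 - 14 * (a + b))) := by
    linear_combination 2 * wb - 2 * wa
  have h5 : (b - a) * (20 - 28 * (a + b)) ≤ (b - a) * (5 * (q + p)) :=
    mul_le_mul_of_nonneg_left (by linarith) (by linarith)
  linarith

/-- The motion of `B`. -/
noncomputable def mB (τ : ℝ) : E3 :=
  R (phi * cl (3 * τ)) + cl (3 * τ - 1) • (B2 - R phi)

/-- The motion of `A`. -/
noncomputable def mA (τ : ℝ) : E3 :=
  sg (cl (3 * τ - 1)) • J (R phi) + (J (R (phi * (1 - cl (3 * τ - 2)))) - J (R phi))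

theorem R_dist (x y : ℝ) : ‖R x - R y‖ ≤ √2 * |x - y| := by
  have h2 : √2 ^ 2 = 2 := Real.sq_sqrt (by norm_num)
  rw [R, R, sub_vec]
  apply le_of_sq_le_sq _ (by positivity)
  rw [norm_vec, mul_pow, h2, sq_abs]
  have h1 := Real.one_sub_sq_div_two_le_cos (x := x - y)
  rw [Real.cos_sub] at h1
  have h3 := Real.sin_sq_add_cos_sq x
  have h4 := Real.sin_sq_add_cos_sq y
  nlinarith

theorem R_phi : R phi = !₂[(6 + 4 * √6) / 15, √6 / 3, (12 - 2 * √6) / 15] := by
  rw [R, cos_phi, sin_phi]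
  ext i
  fin_cases i
  · simp
    ring
  · simp
    ring
  · simp
    ring

theorem R_zero : R 0 = B1 := by
  rw [R, B1]
  ext i
  fin_cases i <;> simp

theorem J_vec (a b c : ℝ) : J (!₂[a, b, c] : E3) = !₂[1 - a, b, 2 - c] := by
  rw [J]
  ext i
  fin_cases i <;> simp

theorem J_dist (v w : E3) : ‖J v - J w‖ = ‖v - w‖ := by
  rw [J, J, sub_vec, norm_vec', EuclideanSpace.norm_eq, Fin.sum_univ_three]
  congr 1
  simp only [Real.norm_eq_abs, sq_abs, PiLp.sub_apply]
  ring

theorem J_J (v : E3) : J (J v) = v := by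
  rw [J]
  ext i
  fin_cases i <;> simp [J]

theorem norm_R (x : ℝ) : ‖R x‖ = √2 := by
  rw [R, norm_vec']
  congr 1
  have h3 := Real.sin_sq_add_cos_sq x
  linear_combination 2 * h3

theorem J_B1 : J B1 = A2 := by
  rw [B1, A2, J_vec]
  norm_num

theorem J_A1 : J A1 = B2 := by
  rw [A1, B2, J_vec]
  norm_num

theorem norm_D : ‖B2 - R phi‖ = √3 := by
  rw [R_phi, B2, sub_vec, norm_vec']
  congr 1
  linear_combination (1 / 5 : ℝ) * sqrt_six_sq

theorem A1_eq : A1 = 0 := by
  rw [A1]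
  ext i
  fin_cases i <;> simp

theorem norm_JR : ‖J (R phi)‖ = √3 := by
  have h := J_dist (R phi) B2
  have h2 : J B2 = 0 := by rw [← J_A1, J_J, A1_eq]
  rw [h2, sub_zero] at h
  rw [h, norm_sub_rev, norm_D]

theorem eVariationOn_le_of {f : ℝ → E3} {g : ℝ → ℝ} {L : ℝ} (hg : Monotone g)
    (hL : g 1 - g 0 = L) (h : ∀ x y, x ≤ y → ‖f y - f x‖ ≤ g y - g x) :
    eVariationOn f (Icc 0 1) ≤ ENNReal.ofReal L := by
  have h1 : eVariationOn f (Icc 0 1) ≤ eVariationOn g (Icc 0 1) := by
    unfold eVariationOn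
    refine iSup_mono fun p => Finset.sum_le_sum fun i _ => ?_
    have hmono := p.2.2.1 (Nat.le_succ i)
    rw [edist_dist, edist_dist]
    apply ENNReal.ofReal_le_ofReal
    rw [dist_eq_norm, Real.dist_eq, abs_of_nonneg (sub_nonneg.2 (hg hmono))]
    exact h _ _ hmono
  refine h1.trans ?_
  have h2 := (hg.monotoneOn (Icc (0 : ℝ) 1)).eVariationOn_eq (left_mem_Icc.2 zero_le_one)
    (right_mem_Icc.2 zero_le_one)
  rw [inter_self, hL] at h2
  exact h2.le

theorem var_B : eVariationOn mB (Icc 0 1) ≤ ENNReal.ofReal (√2 * phi + √3) := by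
  refine eVariationOn_le_of
    (g := fun τ => √2 * phi * cl (3 * τ) + √3 * cl (3 * τ - 1)) ?_ ?_ ?_
  · intro a b hab
    have h1 : cl (3 * a) ≤ cl (3 * b) := cl_mono (by linarith)
    have h2 : cl (3 * a - 1) ≤ cl (3 * b - 1) := cl_mono (by linarith)
    exact add_le_add (mul_le_mul_of_nonneg_left h1 (mul_nonneg (by positivity) phi_nonneg))
      (mul_le_mul_of_nonneg_left h2 (by positivity))
  · rw [cl_of_ge (show (1 : ℝ) ≤ 3 * 1 by norm_num), cl_of_ge (show (1 : ℝ) ≤ 3 * 1 - 1 by norm_num),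
      cl_of_le (show (3 : ℝ) * 0 ≤ 0 by norm_num), cl_of_le (show (3 : ℝ) * 0 - 1 ≤ 0 by norm_num)]
    ring
  · intro x y hxy
    have h1 : cl (3 * x) ≤ cl (3 * y) := cl_mono (by linarith)
    have h2 : cl (3 * x - 1) ≤ cl (3 * y - 1) := cl_mono (by linarith)
    have e : mB y - mB x = (R (phi * cl (3 * y)) - R (phi * cl (3 * x))) +
        (cl (3 * y - 1) - cl (3 * x - 1)) • (B2 - R phi) := by
      unfold mB
      module
    rw [e]
    refine (norm_add_le _ _).trans ?_
    rw [norm_smul, norm_D, Real.norm_of_nonneg (by linarith)]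
    have h3 := R_dist (phi * cl (3 * y)) (phi * cl (3 * x))
    rw [← mul_sub, abs_mul, abs_of_nonneg phi_nonneg, abs_of_nonneg (by linarith)] at h3
    calc _ ≤ √2 * (phi * (cl (3 * y) - cl (3 * x))) +
          (cl (3 * y - 1) - cl (3 * x - 1)) * √3 := add_le_add h3 le_rfl
      _ = _ := by ring

theorem var_A : eVariationOn mA (Icc 0 1) ≤ ENNReal.ofReal (√2 * phi + √3) := by
  refine eVariationOn_le_of
    (g := fun τ => √3 * sg (cl (3 * τ - 1)) + √2 * phi * cl (3 * τ - 2)) ?_ ?_ ?_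
  · intro a b hab
    have h1 : cl (3 * a - 2) ≤ cl (3 * b - 2) := cl_mono (by linarith)
    have h2 : cl (3 * a - 1) ≤ cl (3 * b - 1) := cl_mono (by linarith)
    have h3 := sg_mono ⟨cl_nonneg _, cl_le _⟩ ⟨cl_nonneg _, cl_le _⟩ h2
    exact add_le_add (mul_le_mul_of_nonneg_left h3 (by positivity))
      (mul_le_mul_of_nonneg_left h1 (mul_nonneg (by positivity) phi_nonneg))
  · rw [cl_of_ge (show (1 : ℝ) ≤ 3 * 1 - 1 by norm_num),
      cl_of_ge (show (1 : ℝ) ≤ 3 * 1 - 2 by norm_num),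
      cl_of_le (show (3 : ℝ) * 0 - 1 ≤ 0 by norm_num),
      cl_of_le (show (3 : ℝ) * 0 - 2 ≤ 0 by norm_num), sg_zero, sg_one]
    ring
  · intro x y hxy
    have h1 : cl (3 * x - 2) ≤ cl (3 * y - 2) := cl_mono (by linarith)
    have h2 : cl (3 * x - 1) ≤ cl (3 * y - 1) := cl_mono (by linarith)
    have h3 := sg_mono ⟨cl_nonneg _, cl_le _⟩ ⟨cl_nonneg _, cl_le _⟩ h2
    have e : mA y - mA x = (sg (cl (3 * y - 1)) - sg (cl (3 * x - 1))) • J (R phi) +
        (J (R (phi * (1 - cl (3 * y - 2)))) - J (R (phi * (1 - cl (3 * x - 2))))) := by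
      unfold mA
      module
    rw [e]
    refine (norm_add_le _ _).trans ?_
    rw [norm_smul, norm_JR, Real.norm_of_nonneg (by linarith), J_dist]
    have h4 := R_dist (phi * (1 - cl (3 * y - 2))) (phi * (1 - cl (3 * x - 2)))
    have e2 : phi * (1 - cl (3 * y - 2)) - phi * (1 - cl (3 * x - 2)) =
        -(phi * (cl (3 * y - 2) - cl (3 * x - 2))) := by ring
    rw [e2, abs_neg, abs_mul, abs_of_nonneg phi_nonneg, abs_of_nonneg (by linarith)] at h4
    calc _ ≤ (sg (cl (3 * y - 1)) - sg (cl (3 * x - 1))) * √3 +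
          √2 * (phi * (cl (3 * y - 2) - cl (3 * x - 2))) := add_le_add le_rfl h4
      _ = _ := by ring

theorem dist_middle {t : ℝ} (h0 : 0 ≤ t) (h1 : t ≤ 1) :
    dist (sg t • J (R phi)) (R phi + t • (B2 - R phi)) = √2 := by
  have hs := sg_eq h0 h1
  have h6 := sqrt_six_sq
  set s := sg t
  rw [R_phi, J_vec, B2, sub_vec]
  have e1 : s • (!₂[1 - (6 + 4 * √6) / 15, √6 / 3, 2 - (12 - 2 * √6) / 15] : E3) =
      !₂[s * (1 - (6 + 4 * √6) / 15), s * (√6 / 3), s * (2 - (12 - 2 * √6) / 15)] := by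
    ext i
    fin_cases i <;> simp
  have e2 : (!₂[(6 + 4 * √6) / 15, √6 / 3, (12 - 2 * √6) / 15] : E3) +
      t • !₂[1 - (6 + 4 * √6) / 15, 0 - √6 / 3, 2 - (12 - 2 * √6) / 15] =
      !₂[(6 + 4 * √6) / 15 + t * (1 - (6 + 4 * √6) / 15), √6 / 3 + t * (0 - √6 / 3),
        (12 - 2 * √6) / 15 + t * (2 - (12 - 2 * √6) / 15)] := by
    ext i
    fin_cases i <;> simp
  rw [e1, e2, dist_vec]
  congr 1
  linear_combination hs + ((1 / 5 : ℝ) * (s ^ 2 + (1 - t) ^ 2) - 2 / 45 * s * (1 - t)) * h6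

theorem isMotion : IsMotion mA mB where
  contA := by
    have hR : Continuous R := by
      unfold R
      refine (PiLp.continuous_toLp 2 _).comp (continuous_pi fun i => ?_)
      fin_cases i
      · exact Real.continuous_cos.add (Real.continuous_sin.div_const 3)
      · exact Real.continuous_cos.sub (Real.continuous_sin.div_const 3)
      · exact (continuous_const.mul Real.continuous_sin).div_const 3
    have hJ : Continuous J := by
      have : LipschitzWith 1 J := LipschitzWith.of_dist_le_mul fun v w => by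
        rw [dist_eq_norm, dist_eq_norm, J_dist]
        simp
      exact this.continuous
    unfold mA
    have h1 : Continuous fun τ : ℝ => cl (3 * τ - 1) := cl_cont.comp (by fun_prop)
    have h2 : Continuous fun τ : ℝ => cl (3 * τ - 2) := cl_cont.comp (by fun_prop)
    exact (((sg_cont.comp h1).smul continuous_const).add
      ((hJ.comp (hR.comp (continuous_const.mul (continuous_const.sub h2)))).sub
        continuous_const)).continuousOn
  contB := by
    have hR : Continuous R := by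
      unfold R
      refine (PiLp.continuous_toLp 2 _).comp (continuous_pi fun i => ?_)
      fin_cases i
      · exact Real.continuous_cos.add (Real.continuous_sin.div_const 3)
      · exact Real.continuous_cos.sub (Real.continuous_sin.div_const 3)
      · exact (continuous_const.mul Real.continuous_sin).div_const 3
    unfold mB
    have h1 : Continuous fun τ : ℝ => cl (3 * τ - 1) := cl_cont.comp (by fun_prop)
    have h2 : Continuous fun τ : ℝ => cl (3 * τ) := cl_cont.comp (by fun_prop)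
    exact ((hR.comp (continuous_const.mul h2)).add (h1.smul continuous_const)).continuousOn
  dist_eq := by
    intro τ hτ
    unfold mA mB
    rcases le_total τ (1 / 3) with h | h
    · rw [cl_of_le (show 3 * τ - 1 ≤ 0 by linarith), cl_of_le (show 3 * τ - 2 ≤ 0 by linarith),
        sg_zero, zero_smul, zero_smul, sub_zero, mul_one, sub_self, add_zero, add_zero,
        dist_eq_norm, zero_sub, norm_neg, norm_R]
    · rcases le_total τ (2 / 3) with h2 | h2
      · rw [cl_of_ge (show 1 ≤ 3 * τ by linarith), cl_of_le (show 3 * τ - 2 ≤ 0 by linarith),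
          sub_zero, mul_one, sub_self, add_zero]
        exact dist_middle (cl_nonneg _) (cl_le _)
      · rw [cl_of_ge (show 1 ≤ 3 * τ by linarith), cl_of_ge (show 1 ≤ 3 * τ - 1 by linarith),
          sg_one, one_smul, one_smul, mul_one, add_sub_cancel, add_sub_cancel, dist_eq_norm,
          ← J_A1, J_dist, A1_eq, sub_zero, norm_R]
  A_zero := by
    unfold mA
    rw [cl_of_le (show (3 : ℝ) * 0 - 1 ≤ 0 by norm_num),
      cl_of_le (show (3 : ℝ) * 0 - 2 ≤ 0 by norm_num), sg_zero, zero_smul, sub_zero, mul_one,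
      sub_self, add_zero, A1_eq]
  B_zero := by
    unfold mB
    rw [cl_of_le (show (3 : ℝ) * 0 - 1 ≤ 0 by norm_num),
      cl_of_le (show (3 : ℝ) * 0 ≤ 0 by norm_num), zero_smul, mul_zero, add_zero, R_zero]
  A_one := by
    unfold mA
    rw [cl_of_ge (show (1 : ℝ) ≤ 3 * 1 - 1 by norm_num),
      cl_of_ge (show (1 : ℝ) ≤ 3 * 1 - 2 by norm_num), sg_one, one_smul, sub_self, mul_zero,
      add_sub_cancel, R_zero, J_B1]
  B_one := by
    unfold mB
    rw [cl_of_ge (show (1 : ℝ) ≤ 3 * 1 by norm_num),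
      cl_of_ge (show (1 : ℝ) ≤ 3 * 1 - 1 by norm_num), one_smul, mul_one, add_sub_cancel]

end motion

/-- There is a motion of cost at most `2 (√2 arccos ((2 + 3 √6) / 10) + √3)`, and the costs of all
admissible motions `M_θ` are bounded below by a larger number. -/
theorem result : ∃ A B : ℝ → E3, IsMotion A B ∧
    cost A B ≤ ENNReal.ofReal (2 * (√2 * Real.arccos ((2 + 3 * √6) / 10) + √3)) ∧
    ∃ c' : ℝ, 2 * (√2 * Real.arccos ((2 + 3 * √6) / 10) + √3) < c' ∧
      ∀ θ, Admissible θ → c' ≤ costM θ := by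
  refine ⟨mA, mB, isMotion, ?_, exists_gap⟩
  have h0 : 0 ≤ √2 * phi + √3 := by
    have := phi_nonneg
    positivity
  calc cost mA mB ≤ ENNReal.ofReal (√2 * phi + √3) + ENNReal.ofReal (√2 * phi + √3) :=
        add_le_add var_A var_B
    _ = ENNReal.ofReal (2 * (√2 * phi + √3)) := by
        rw [← ENNReal.ofReal_add h0 h0]
        congr 1
        ring

end Pool.Agent.Results.MP_9fae52_an.TangentialMotion
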